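import Mathlib
import Pool.Agent.MP_485bb6_lc.Defs
import Pool.Agent.Mg.F2e8011.G5feac5

open Pool.Agent.MP_485bb6_lc

theorem Pool.Agent.Results.MP_485bb6_lc.Q1Proof.result (d : ℕ) (hd : 3 ≤ d) :
    IsExistsRComplete (UBG d) := by
  obtain ⟨m, rfl⟩ : ∃ m, d = m + 2 := ⟨d - 2, by omega⟩
  exact ⟨etr_reduces m, ubg_mem _⟩
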