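import Mathlib
import Pool.Agent.MP_485bb6_lc.Defs
import Pool.Agent.MP_485bb6_lc.CoMain

open Pool.Agent.MP_485bb6_lc

/-- For `d ≥ 3`, every language that contains the co-bipartite graphs realisable for every radius
`r` inside one ball of radius `2 r`, and that contains only unit ball graphs of hyperbolic
`d`-space, is hard for the existential theory of the reals. -/
theorem Pool.Agent.Results.MP_485bb6_lc.TwoCliques.result (d : ℕ) (hd : 3 ≤ d)
    (A : N68a2faeb.DecisionProblem)
    (h1 : ∀ (n : ℕ) (G : SimpleGraph (Fin n)), Gᶜ.Colorable 2 →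
      (∀ r : ℝ, 0 < r → ∃ (o : Hyp d) (c : Fin n → Hyp d), (∀ v, hdist o (c v) ≤ 2 * r) ∧
        ∀ u v, u ≠ v → (G.Adj u v ↔ hdist (c u) (c v) ≤ 2 * r)) → A (graphCode G) = true)
    (h2 : ∀ x, A x = true → UBG d x = true) : N793a5b8e.ManyOneReducible ETR A := by
  obtain ⟨m, rfl⟩ : ∃ m, d = m + 2 := ⟨d - 2, by omega⟩
  exact Co.sandwich (by omega) A h1 h2
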